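import Pool.Agent.Q209.DM.Fin2

/-!
# Compatibility of the product with domination: finitary types versus star-types

There is a complete theory in which the product of invariant types respects domination on
finitary types but not on types in infinite tuples of variables.
-/

namespace Pool.Agent.Results.MP_02e24e_lc.FinitaryNotStar

open FirstOrder FirstOrder.Language Cardinal Pool.Agent.Y562.NWO Pool.Agent.Q209.DM

theorem countable_symbols : Countable (Σ n, Lg.Functions n) ∧ Countable (Σ n, Lg.Relations n) := by
  constructor
  · have : IsEmpty (Σ n, Lg.Functions n) := ⟨fun f => Empty.elim f.2⟩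
    infer_instance
  · have : ∀ n, Countable (Lg.Relations n) := fun n => inferInstanceAs (Countable (Rl n))
    infer_instance

/-- **Theorem.** There is a complete theory `T` in a countable language such that for every monster
model `U` of `T` (at any uncountable `κ`) the product of invariant types respects domination on
types in finitely many variables, but not on types in countably many variables, hence not on types
in fewer than `κ` variables. -/
theorem result : ∃ (L : FirstOrder.Language.{0, 0}) (T : L.Theory),
    Countable (Σ n, L.Functions n) ∧ Countable (Σ n, L.Relations n) ∧ T.IsComplete ∧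
    ∀ (κ : Cardinal.{0}) (U : Type) [L.Structure U], U ⊨ T → IsMonster κ L U →
      Respects κ L U (fun α => Finite α) ∧ ¬ Respects κ L U (fun α => Countable α) ∧
      ¬ Respects κ L U (fun α => #α < κ) := by
  refine ⟨Lg, Th, countable_symbols.1, countable_symbols.2, ?_, ?_⟩
  · let _ := Ustr
    exact completeTheory.isComplete Lg ℕ
  · intro κ U _ hU hκ
    refine ⟨respects_fin hU hκ, not_respects hU hκ _ inferInstance inferInstance,
      not_respects hU hκ _ ((lt_aleph0_of_finite Unit).trans hκ.aleph0_lt) ?_⟩
    rw [mk_nat]
    exact hκ.aleph0_lt

end Pool.Agent.Results.MP_02e24e_lc.FinitaryNotStar
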